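import Mathlib
import Pool.Agent.P8H82.FF.Pkg

/-!
# MP_c59389_nt: the number and the limit law of the height for the abelian surfaces `Res_{K/ℚ} E`, `K = ℚ(√5)`,
of ALL elliptic curves with full two-torsion (all twists), and for the products of `n` such surfaces

Frey's inequality says that `h_F(A) ≤ (m / 2 + ε) log N_A + c` for all abelian varieties `A` over `ℚ`
of dimension `m`, with the stable Faltings height. Let `K = ℚ(√5)`. We consider the abelian surfaces
`S = Res_{K/ℚ} E` over `ℚ` for ALL elliptic curves `E` over `K` with full `K`-rational two-torsion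
(isomorphism classes over `K`, all twists, any kind of reduction) and, for every `n ≥ 1`, the products
`A` of `n` such surfaces (`m = 2 n`), ordered by the part `N'_A` outside `2` of the conductor, with no
bound on the heights (`N'_A ≤ N_A ≤ C ^ n N'_A`, as the conductor exponents above `2` are bounded). Here
`h_F(S) = 2 h_F(E)` (over the algebraic closure `S` is the product of the two conjugates of `E`), and
`N_S = |D_K| ^ 2 N(f_E) = 25 N(f_E)` (Milne). We find

1. their asymptotic number `A₀ ^ n (2 / 3) ^ (n - 1) / (n - 1)! X ^ (2 / 3) (log X) ^ (n - 1)`, with an explicit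
   `A₀`, a product over the primes of `K`: a count of ALL elliptic curves with full two-torsion
   by the conductor (outside `2`);
2. the limit law of `h_F(A) - (1 / 6) log N'_A`: it is the law of the sum of `n` independent variables
   with the same continuous law, that of `(log v + a₁ + a₂) / 12`, where `v` has an explicit discrete
   law, given by weights on the pairs `(D, w)` (`D` the set of the primes of additive reduction, `w` an
   ideal), and `a₁`, `a₂` (the two archimedean parts) have one explicit continuous law, all independent;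
3. that this law is unbounded above: for every `c` a positive share of the varieties has
   `h_F(A) > (1 / 6) log N'_A + c`; and that almost all of them satisfy Frey's inequality with any slope
   `κ > 1 / 6` in place of `m / 2 = n`, while almost all of them violate it for every `κ < 1 / 6`.

The starting file `StableHeightInProbability` shows, for all elliptic curves with full two-torsion over
a number field, that `h_F(A) - (1 / 6) log N` is bounded in probability, with bounds for the tails (its
bound for the tail is used here). The theorem `SemistableSurfaces` (of this project) is the law for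
the subfamily of the semistable curves, a thin part of the types used here, with the full conductor;
`StableHeightLimitLaw` is the law for Frey curves over `ℚ`.

Formalised by helper4, helper21, helper45, helper52, helper53, helper57, helper71, helper75, helper80,
helper86, helper88 and helper82 (and, for the joint law, the archimedean law and the theorem on
products, helper20, helper33, helper44, helper55, helper56, helper60 and helper78).
-/

set_option autoImplicit false

namespace Pool.Agent.Results.MP_c59389_nt.AllTwoTorsionSurfaces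

open NumberField IsDedekindDomain MeasureTheory Filter Topology

/-! ### The family -/

/-- the isomorphism classes over `K` of the Weierstrass equations over `K` -/
abbrev Curves (K : Type) [Field K] : Type :=
  Quotient (MulAction.orbitRel (WeierstrassCurve.VariableChange K) (WeierstrassCurve K))

variable {K : Type} [Field K] [NumberField K]

/-- `E` has three different points of order two over `K` (their first coordinates are `e 0`, `e 1`,
`e 2`): it is an elliptic curve with full `K`-rational two-torsion -/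
def FullTwo (E : WeierstrassCurve K) : Prop :=
  ∃ e : Fin 3 → K, Function.Injective e ∧
    ∀ i, 4 * e i ^ 3 + E.b₂ * e i ^ 2 + 2 * E.b₄ * e i + E.b₆ = 0

/-- the Weierstrass equation is integral at `v` -/
def IntegralAt (v : HeightOneSpectrum (𝓞 K)) (E : WeierstrassCurve K) : Prop :=
  v.valuation K E.a₁ ≤ 1 ∧ v.valuation K E.a₂ ≤ 1 ∧ v.valuation K E.a₃ ≤ 1 ∧
    v.valuation K E.a₄ ≤ 1 ∧ v.valuation K E.a₆ ≤ 1

/-- good reduction at `v`: some Weierstrass equation over `K` of the curve is integral at `v` and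
has a discriminant which is a unit at `v` -/
def GoodAt (v : HeightOneSpectrum (𝓞 K)) (E : WeierstrassCurve K) : Prop :=
  ∃ C : WeierstrassCurve.VariableChange K, IntegralAt v (C • E) ∧ v.valuation K (C • E).Δ = 1

/-- semistable (good or multiplicative) reduction at `v`: some Weierstrass equation over `K` of the
curve is integral at `v` and its discriminant or its invariant `c₄` is a unit at `v` -/
def SemistableAt (v : HeightOneSpectrum (𝓞 K)) (E : WeierstrassCurve K) : Prop :=
  ∃ C : WeierstrassCurve.VariableChange K, IntegralAt v (C • E) ∧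
    (v.valuation K (C • E).Δ = 1 ∨ v.valuation K (C • E).c₄ = 1)

/-! ### Conductor and height of the surface `S = Res_{K/ℚ} E` -/

/-- the part outside two of the conductor `N_S = |D_K| ² N(f_E)` of the surface `S = Res_{K/ℚ} E` of the
class `q` of `E`: `D_K = 5`, and the part outside two of `N(f_E)` is the product of the norms of the
primes not above two of bad reduction (exponent `1` for multiplicative reduction) and of those of
additive reduction (which have the exponent `2`) -/
noncomputable def condS (q : Curves K) : ℝ :=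
  25 * ((∏ᶠ v ∈ {v : HeightOneSpectrum (𝓞 K) | ¬ GoodAt v q.out ∧ v.valuation K 2 = 1},
      (Ideal.absNorm v.asIdeal : ℝ)) *
    ∏ᶠ v ∈ {v : HeightOneSpectrum (𝓞 K) | ¬ SemistableAt v q.out ∧ v.valuation K 2 = 1},
      (Ideal.absNorm v.asIdeal : ℝ))

/-- the modular invariant of the class -/
noncomputable def jOf (q : Curves K) : K := q.out.c₄ ^ 3 / q.out.Δ

/-- the modular invariant `j(τ) = E₄(τ) ^ 3 / Δ(τ) = 1 / q + 744 + ⋯` -/
noncomputable def jInv (τ : UpperHalfPlane) : ℂ :=
  ModularForm.E₄ τ ^ 3 / ModularForm.discriminant τ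

/-- the archimedean term `- log (|Δ(τ)| (Im τ) ^ 6)` of the Faltings height -/
noncomputable def arch (τ : UpperHalfPlane) : ℝ :=
  -Real.log (‖ModularForm.discriminant τ‖ * τ.im ^ 6)

/-- `τ = i y` with `y ≥ 1` and with the modular invariant `z` -/
def IsPeriod (z : ℂ) (τ : UpperHalfPlane) : Prop := τ.re = 0 ∧ 1 ≤ τ.im ∧ jInv τ = z

/-- the archimedean term for the modular invariant `z` (in this family there is exactly one period
at each infinite place, by part (1) of the theorem) -/
noncomputable def archOf (z : ℂ) : ℝ := arch (Classical.epsilon (IsPeriod z))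

/-- the stable Faltings height of the surface `S = Res_{K/ℚ} E`, up to an additive constant which
depends on the normalisation only (Silverman): `12 h_F(S) = 12 [K : ℚ] h_F(E)` is the sum of
`log max (|j|_v, 1)` over the finite places (the contribution of the minimal discriminant over an
extension where the curve is semistable) and of the archimedean terms over the infinite places -/
noncomputable def heightS (q : Curves K) : ℝ :=
  (∑ᶠ v : HeightOneSpectrum (𝓞 K), Real.log (max (FinitePlace.mk v (jOf q)) 1) +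
    ∑ w : InfinitePlace K, (w.mult : ℝ) * archOf (w.embedding (jOf q))) / 12

/-! ### Products of `n` surfaces -/

/-- the products `A` of `n` such surfaces, given by the `n` classes of the curves, with
`N'_A = ∏ condS (q k)` at most `X` and with the property `P`, of any height -/
def Varieties (n : ℕ) (X : ℝ) (P : (Fin n → Curves K) → Prop) : Set (Fin n → Curves K) :=
  {q | (∀ k, FullTwo (q k).out) ∧ ∏ k, condS (q k) ≤ X ∧ P q}

/-- the share of those with `h_F(A) ≤ κ log N'_A + c` -/
noncomputable def share (K : Type) [Field K] [NumberField K] (n : ℕ) (κ c : ℝ) (X : ℝ) : ℝ :=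
  ((Varieties n X fun q : Fin n → Curves K => ∑ k, heightS (q k) ≤
      κ * Real.log (∏ k, condS (q k)) + c).ncard : ℝ) /
    ((Varieties n X fun _ : Fin n → Curves K => True).ncard : ℝ)

/-! ### The limit law -/

/-- the norm of a prime ideal -/
noncomputable def nrm (P : HeightOneSpectrum (𝓞 K)) : ℝ := (Ideal.absNorm P.asIdeal : ℝ)

/-- the exponent of the prime ideal `I` in the ideal `w` -/
noncomputable def expo (I w : Ideal (𝓞 K)) : ℕ :=
  open Classical in (UniqueFactorizationMonoid.normalizedFactors w).count I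

/-- the factor at `P` of the type `(D, w)`, the density of the pairs `(a, b)` of integers of `K` which are
coprime at `P` and for which `a b (a + b)` has the exponent `e` of `P` in `w` as its exponent of `P`
if `P ∈ D` or `P` is above two, and the exponent `e + 1` (or, if `e = 0`, `0` or `1`) otherwise -/
noncomputable def factor (i : Finset (HeightOneSpectrum (𝓞 K)) × Ideal (𝓞 K))
    (P : HeightOneSpectrum (𝓞 K)) : ℝ :=
  open Classical in
  if P ∈ i.1 ∨ P.valuation K 2 ≠ 1 then
    (if expo P.asIdeal i.2 = 0 then (1 - 1 / nrm P) * (1 - 2 / nrm P) else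
      3 * (1 - 1 / nrm P) ^ 2 / nrm P ^ expo P.asIdeal i.2)
  else
    (if expo P.asIdeal i.2 = 0 then 1 - 4 / nrm P ^ 2 + 3 / nrm P ^ 3 else
      3 * (1 - 1 / nrm P) ^ 2 / nrm P ^ (expo P.asIdeal i.2 + 1))

/-- the weight of the type `(D, w)` (zero if `w = 0` or `D` has a prime above two): `D` are the primes
of additive reduction -/
noncomputable def weight (i : Finset (HeightOneSpectrum (𝓞 K)) × Ideal (𝓞 K)) : ℝ :=
  open Classical in
  if (∃ P ∈ i.1, P.valuation K 2 ≠ 1) ∨ i.2 = ⊥ then 0 else
    (∏ P ∈ i.1, nrm P) ^ (-(4 : ℝ) / 3) * (Ideal.absNorm i.2 : ℝ) ^ ((2 : ℝ) / 3) *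
      ∏' P : HeightOneSpectrum (𝓞 K), factor i P

/-- the arithmetic part `v(D, w)`: `12 h_F(S) = 2 log N'_S + log v(D, w) + a₁ + a₂` -/
noncomputable def ratio (i : Finset (HeightOneSpectrum (𝓞 K)) × Ideal (𝓞 K)) : ℝ :=
  (Ideal.absNorm i.2 : ℝ) ^ 2 /
    (25 ^ 2 * (∏ P ∈ i.1, nrm P) ^ 4 * 4 ^ min (2 * expo (Ideal.span {2}) i.2) 8)

/-- the density of the real shapes, up to a constant -/
noncomputable def dens (x : ℝ) : ℝ := |x * (x + 1)| ^ (-(2 : ℝ) / 3)

/-- the modular invariant of the shape `x` -/
noncomputable def jShape (x : ℝ) : ℝ := 256 * (x ^ 2 + x + 1) ^ 3 / (x * (x + 1)) ^ 2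

/-- the probability that `a₁ + a₂ ≤ y`, where `a₁` and `a₂` are the archimedean terms of two
independent shapes with density proportional to `dens` -/
noncomputable def archLaw (y : ℝ) : ℝ :=
  (∫ x in {x : ℝ × ℝ | x.1 ≠ 0 ∧ x.1 ≠ -1 ∧ x.2 ≠ 0 ∧ x.2 ≠ -1 ∧
    archOf ((jShape x.1 : ℝ) : ℂ) + archOf ((jShape x.2 : ℝ) : ℂ) ≤ y}, dens x.1 * dens x.2) /
  ∫ x : ℝ × ℝ, dens x.1 * dens x.2

/-- the law of `(log (v(D, w)) + a₁ + a₂) / 12`, where the type `(D, w)` has a probability proportional
to its weight and is independent of `a₁`, `a₂` -/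
noncomputable def law (K : Type) [Field K] [NumberField K] (x : ℝ) : ℝ :=
  (∑' i : Finset (HeightOneSpectrum (𝓞 K)) × Ideal (𝓞 K),
    weight i * archLaw (12 * x - Real.log (ratio i))) /
    ∑' i : Finset (HeightOneSpectrum (𝓞 K)) × Ideal (𝓞 K), weight i

/-- the probability that the sum of `n` independent variables of law `μ` is at most `x` -/
noncomputable def sumLaw (μ : Measure ℝ) (n : ℕ) (x : ℝ) : ℝ :=
  (Measure.pi fun _ : Fin n => μ).real {y | ∑ k, y k ≤ x}

/-- **The number and the limit law of the height for the abelian surfaces `Res_{K/ℚ} E` over `ℚ`,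
`K = ℚ(√5)`, of all elliptic curves `E` over `K` with full two-torsion, and for their products.** (1) Such
a curve has exactly one period `τ = i y`, `y ≥ 1`, at each infinite place. (2) The weights are
summable, their sum is positive and equals the product over the primes `P` of `K`, `q` the norm, of
`(1 - 1/q) (1 + 1/q + 4 q^(-4/3) + 6 q^(-5/3) + 3/q² + q^(-7/3))` for `P ≠ 2` and of
`(1 - 1/q) (1 + q^(-1/3))³` for `P = 2`. (3) There is a probability measure `μ` with the continuous
distribution function `law K` such that for every `n ≥ 1`, for the products `A` of `n` surfaces,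
(a) the number of those with `N'_A ≤ X` is asymptotic to
`A₀ ^ n (2 / 3) ^ (n - 1) / (n - 1)! X ^ (2 / 3) (log X) ^ (n - 1)`, where
`A₀ = (4/3) (log ((1 + √5) / 2) / 5) 25 ^ (-2/3) (3 Γ(1/3)² / Γ(2/3))² ∑ weight`; (b) the share of those
with `h_F(A) ≤ (1 / 6) log N'_A + x` tends to `sumLaw μ n x < 1`, for every `x`; (c) for every `c` the
share of those with `h_F(A) ≤ κ log N'_A + c` tends to `1` if `κ > 1 / 6` and to `0` if `κ < 1 / 6`. -/
theorem result : ∀ (K : Type) [Field K] [NumberField K], Module.finrank ℚ K = 2 →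
    (∃ s : K, s ^ 2 = 5) →
    (∀ q : Curves K, FullTwo q.out → ∀ w : InfinitePlace K,
      ∃! τ, IsPeriod (w.embedding (jOf q)) τ) ∧
    (Summable (fun i : Finset (HeightOneSpectrum (𝓞 K)) × Ideal (𝓞 K) => weight i) ∧
      0 < ∑' i : Finset (HeightOneSpectrum (𝓞 K)) × Ideal (𝓞 K), weight i ∧
      HasProd (fun P : HeightOneSpectrum (𝓞 K) => open Classical in (1 - 1 / nrm P) *
        (if P.valuation K 2 = 1 then
          1 + 1 / nrm P + 4 * nrm P ^ (-(4 : ℝ) / 3) + 6 * nrm P ^ (-(5 : ℝ) / 3) +
            3 / nrm P ^ 2 + nrm P ^ (-(7 : ℝ) / 3)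
        else (1 + nrm P ^ (-(1 : ℝ) / 3)) ^ 3))
        (∑' i : Finset (HeightOneSpectrum (𝓞 K)) × Ideal (𝓞 K), weight i)) ∧
    ∃ μ : Measure ℝ, IsProbabilityMeasure μ ∧ (∀ x, μ.real (Set.Iic x) = law K x) ∧
      Continuous (law K) ∧
      ∀ n : ℕ, 1 ≤ n →
        Tendsto (fun X : ℝ => ((Varieties n X fun _ : Fin n → Curves K => True).ncard : ℝ) /
          (X ^ ((2 : ℝ) / 3) * Real.log X ^ (n - 1))) atTop
          (𝓝 ((4 / 3 * (Real.log ((1 + √5) / 2) / 5) * (1 / 25 : ℝ) ^ ((2 : ℝ) / 3) *
            (3 * Real.Gamma (1 / 3) ^ 2 / Real.Gamma (2 / 3)) ^ 2 *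
              ∑' i : Finset (HeightOneSpectrum (𝓞 K)) × Ideal (𝓞 K), weight i) ^ n *
                (2 / 3) ^ (n - 1) / (n - 1).factorial)) ∧
        (∀ x : ℝ, Tendsto (share K n (1 / 6) x) atTop (𝓝 (sumLaw μ n x)) ∧ sumLaw μ n x < 1) ∧
        ∀ κ c : ℝ, (1 / 6 < κ → Tendsto (share K n κ c) atTop (𝓝 1)) ∧
          (κ < 1 / 6 → Tendsto (share K n κ c) atTop (𝓝 0)) := by
  intro K _ _ hK h5
  classical
  obtain ⟨σ, τ, hG⟩ := Pool.Agent.P8H82.FF.gold (K := K) hK h5
  have pk := Pool.Agent.P8H82.FF.pk
  obtain ⟨hsum, hpos, μ, hμ, hμF, hcts, hn⟩ := Pool.Agent.P8H82.FF.final pk hG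
  have hful : ∀ q : Curves K, FullTwo q.out ↔ Pool.Agent.P8H82.FF.Okq q := by
    intro q
    constructor
    · intro h
      exact Pool.Agent.Y729.AH.pm_of_two h
    · rintro ⟨a, b, h⟩
      exact Pool.Agent.Y729.AH.two_of_pm h
  have hgood : ∀ (v : HeightOneSpectrum (𝓞 K)) (E : WeierstrassCurve K),
      GoodAt v E ↔ Pool.Agent.TH876.FH.GoodAt v E := by
    intro v E
    constructor
    · rintro ⟨C, ⟨h1, h2, h3, h4, h5⟩, h6⟩
      exact ⟨C, h1, h2, h3, h4, h5, h6⟩
    · rintro ⟨C, h1, h2, h3, h4, h5, h6⟩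
      exact ⟨C, ⟨h1, h2, h3, h4, h5⟩, h6⟩
  have hsemi : ∀ (v : HeightOneSpectrum (𝓞 K)) (E : WeierstrassCurve K),
      SemistableAt v E ↔ Pool.Agent.Y729.AH.SemiAt v E := by
    intro v E
    constructor
    · rintro ⟨C, ⟨h1, h2, h3, h4, h5⟩, h6⟩
      exact ⟨C, h1, h2, h3, h4, h5, h6⟩
    · rintro ⟨C, h1, h2, h3, h4, h5, h6⟩
      exact ⟨C, ⟨h1, h2, h3, h4, h5⟩, h6⟩
  have hc : ∀ q : Curves K, condS q = Pool.Agent.P8H82.FF.NFq q := by
    intro q
    unfold condS Pool.Agent.P8H82.FF.NFq Pool.Agent.Y729.AH.cond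
    simp only [hgood, hsemi]
  have hh : ∀ q : Curves K, heightS q = Pool.Agent.P8H82.FF.hJ (Pool.Agent.P8H82.FF.jq q) :=
    fun q => rfl
  have hV : ∀ (n : ℕ) (X : ℝ) (P P' : (Fin n → Curves K) → Prop), (∀ q, P q ↔ P' q) →
      Varieties n X P = Pool.Agent.P8H82.WS.Tu Pool.Agent.P8H82.FF.Okq
        (Pool.Agent.P8H82.FF.NFq (K := K)) n X P' := by
    intro n X P P' hP
    ext q
    unfold Varieties Pool.Agent.P8H82.WS.Tu
    simp only [Set.mem_setOf_eq, hful, hc, hP]
  have hshare : ∀ (n : ℕ) (κ c X : ℝ), share K n κ c X =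
      ((Pool.Agent.P8H82.WS.Tu Pool.Agent.P8H82.FF.Okq (Pool.Agent.P8H82.FF.NFq (K := K)) n X
        fun q => ∑ k, Pool.Agent.P8H82.FF.hJ (Pool.Agent.P8H82.FF.jq (q k)) ≤
          κ * Real.log (∏ k, Pool.Agent.P8H82.FF.NFq (q k)) + c).ncard : ℝ) /
      ((Pool.Agent.P8H82.WS.Tu Pool.Agent.P8H82.FF.Okq
        (Pool.Agent.P8H82.FF.NFq (K := K)) n X fun _ => True).ncard : ℝ) := by
    intro n κ c X
    unfold share
    rw [hV n X (fun _ => True) (fun _ => True) fun q => Iff.rfl,
      hV n X (fun q : Fin n → Curves K => ∑ k, heightS (q k) ≤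
        κ * Real.log (∏ k, condS (q k)) + c)
        (fun q => ∑ k, Pool.Agent.P8H82.FF.hJ (Pool.Agent.P8H82.FF.jq (q k)) ≤
          κ * Real.log (∏ k, Pool.Agent.P8H82.FF.NFq (q k)) + c) fun q => by
        simp only [hh, hc]]
  have hT2 : ∀ P : HeightOneSpectrum (𝓞 K), P ∈ Pool.Agent.Y729.AH.T2 K ↔
      P.valuation K 2 ≠ 1 := by
    intro P
    rw [Pool.Agent.Y729.AH.mem_T2, Ne, Ne, Pool.Agent.Y729.FW.fv_eq_one_iff]
  have hfac : ∀ (i : Finset (HeightOneSpectrum (𝓞 K)) × Ideal (𝓞 K)), i.2 ≠ ⊥ →
      ∏' P : HeightOneSpectrum (𝓞 K), factor i P =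
        Pool.Agent.P8H82.FF.dn (i.1 ∪ Pool.Agent.Y729.AH.T2 K) i.2 := by
    intro i hi
    rw [← (pk.den K (i.1 ∪ Pool.Agent.Y729.AH.T2 K) i.2 hi).1.tprod_eq]
    refine tprod_congr fun P => ?_
    unfold factor Pool.Agent.P8H82.FF.dX
    have hm : P ∈ i.1 ∪ Pool.Agent.Y729.AH.T2 K ↔ P ∈ i.1 ∨ P.valuation K 2 ≠ 1 := by
      rw [Finset.mem_union, hT2]
    by_cases hP : P ∈ i.1 ∨ P.valuation K 2 ≠ 1
    · rw [if_pos hP, if_pos (hm.2 hP)]
      rfl
    · rw [if_neg hP, if_neg fun h => hP (hm.1 h)]
      rfl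
  have hw' : ∀ i : Finset (HeightOneSpectrum (𝓞 K)) × Ideal (𝓞 K),
      weight i = Pool.Agent.P8H82.FF.wt K i := by
    intro i
    unfold weight Pool.Agent.P8H82.FF.wt
    by_cases hz : (∃ P ∈ i.1, P.valuation K 2 ≠ 1) ∨ i.2 = ⊥
    · rw [if_pos hz, if_pos (by simpa only [hT2] using hz)]
    · rw [if_neg hz, if_neg (by simpa only [hT2] using hz), hfac i fun h => hz (Or.inr h)]
      rfl
  have hw : (fun i : Finset (HeightOneSpectrum (𝓞 K)) × Ideal (𝓞 K) => weight i) =
      Pool.Agent.P8H82.FF.wt K := funext hw'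
  have harch : ∀ y : ℝ, archLaw y = Pool.Agent.P8H82.JG.mass
      (Pool.Agent.P8H82.WS.QQ Pool.Agent.P8H82.WS.aa y) / Pool.Agent.P8H82.WS.I0 := fun y => rfl
  have hterm : ∀ (x : ℝ) (i : Finset (HeightOneSpectrum (𝓞 K)) × Ideal (𝓞 K)),
      weight i * archLaw (12 * x - Real.log (ratio i)) =
      Pool.Agent.P8H82.FF.wt K i * Pool.Agent.P8H82.JG.mass (Pool.Agent.P8H82.WS.QQ
        Pool.Agent.P8H82.WS.aa (12 * x + Pool.Agent.P8H82.FF.cF i)) /
          Pool.Agent.P8H82.WS.I0 := by
    intro x i
    rw [hw', harch, mul_div_assoc]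
    by_cases hbot : i.2 = ⊥
    · have h0 : Pool.Agent.P8H82.FF.wt K i = 0 := by
        unfold Pool.Agent.P8H82.FF.wt
        rw [if_pos (Or.inr hbot)]
      rw [h0, zero_mul, zero_mul]
    · have hN := Pool.Agent.P8H82.FF.norm_pos hbot
      have hn := Pool.Agent.TH876.Loc.nn_pos i.1
      have e : 12 * x - Real.log (ratio i) = 12 * x + Pool.Agent.P8H82.FF.cF i := by
        have e1 : Real.log (ratio i) = 2 * Real.log (Ideal.absNorm i.2 : ℝ) -
            (2 * Real.log 25 + 4 * Real.log (Pool.Agent.TH876.Loc.nn i.1) +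
              (min (2 * expo (Ideal.span {2}) i.2) 8 : ℕ) * Real.log 4) := by
          have e2 : (∏ P ∈ i.1, nrm P) = Pool.Agent.TH876.Loc.nn i.1 := rfl
          unfold ratio
          rw [e2, Real.log_div (by positivity) (by positivity), Real.log_mul (by positivity)
            (by positivity), Real.log_mul (by positivity) (by positivity), Real.log_pow,
            Real.log_pow, Real.log_pow, Real.log_pow]
          push_cast
          ring
        have e3 : ((min (2 * expo (Ideal.span {2}) i.2) 8 : ℕ) : ℝ) =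
            min (2 * (Pool.Agent.P8H82.FF.n2 i.2 : ℝ)) 8 := by
          push_cast
          rfl
        rw [e1, e3]
        unfold Pool.Agent.P8H82.FF.cF
        ring
      rw [e]
  have hlaw : law K = Pool.Agent.P8H82.FF.FFc K := by
    funext x
    unfold law Pool.Agent.P8H82.FF.FFc
    rw [tsum_congr (fun i => hterm x i), tsum_congr hw', tsum_div_const, tsum_mul_right, div_div,
      mul_comm Pool.Agent.P8H82.WS.I0]
  have hconst : 4 / 3 * (Real.log ((1 + √5) / 2) / 5) * (1 / 25 : ℝ) ^ ((2 : ℝ) / 3) *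
      (3 * Real.Gamma (1 / 3) ^ 2 / Real.Gamma (2 / 3)) ^ 2 *
        ∑' i : Finset (HeightOneSpectrum (𝓞 K)) × Ideal (𝓞 K), weight i =
          Pool.Agent.P8H82.FF.AFc K := by
    unfold Pool.Agent.P8H82.FF.AFc Pool.Agent.P8H82.JG.lam
    rw [hw, Pool.Agent.P8H82.WS.I0_eq, Pool.Agent.P8H82.JG.mass_univ Pool.Agent.P8H82.WS.s_beta]
    ring
  refine ⟨fun q hq w => ?_, ⟨?_, ?_, ?_⟩, μ, hμ, ?_, ?_, fun n h1n => ?_⟩
  · exact Pool.Agent.P8H82.FF.per_q pk hK h5 hG ((hful q).1 hq) w
  · rw [hw]
    exact hsum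
  · rw [hw]
    exact hpos
  · rw [hw]
    convert pk.eul K hsum using 1
    funext P
    by_cases hP : P.valuation K 2 = 1
    · have hP2 : P ∉ Pool.Agent.Y729.AH.T2 K := by
        rw [hT2, not_not]
        exact hP
      rw [if_pos hP, if_neg hP2]
      rfl
    · have hP2 : P ∈ Pool.Agent.Y729.AH.T2 K := by
        rw [hT2]
        exact hP
      rw [if_neg hP, if_pos hP2]
      rfl
  · rw [hlaw]
    exact hμF
  · rw [hlaw]
    exact hcts
  · obtain ⟨m, rfl⟩ : ∃ m, n = m + 1 := ⟨n - 1, by omega⟩
    obtain ⟨a1, a2, a3⟩ := hn m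
    refine ⟨?_, fun x => ⟨?_, (a2 x).2⟩, fun κ c => ⟨fun h => ?_, fun h => ?_⟩⟩
    · rw [hconst]
      refine a1.congr fun X => ?_
      rw [hV (m + 1) X (fun _ => True) (fun _ => True) fun q => Iff.rfl]
      rfl
    · refine (a2 x).1.congr fun X => ?_
      rw [hshare]
    · refine ((a3 κ c).1 h).congr fun X => ?_
      rw [hshare]
    · refine ((a3 κ c).2 h).congr fun X => ?_
      rw [hshare]

end Pool.Agent.Results.MP_c59389_nt.AllTwoTorsionSurfaces
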