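import Mathlib
import Pool.Agent.P8H51.EB.FinalE

set_option autoImplicit false

/-!
# Frey's inequality with slope `1 / 2`, without `ε` and with an explicit constant, for elliptic curves with few digits

Frey's inequality says that `h_F(A) ≤ (n / 2 + ε) log N_A + c` for all abelian varieties `A` over `ℚ` of dimension `n`. We prove it,
with the slope `1 / 2` in place of `n / 2 + ε`, for the Weil restrictions `A = Res_{K/ℚ} E`, where `K` runs over ALL number fields of
degree `n` and `E` over the following elliptic curves over `K`. Let `β ≠ 0` be a base, an algebraic integer of `K` none of whose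
conjugates has absolute value one, and `ν ≥ 1` a natural number such that for some `t > 1` each conjugate `β'` of `β` satisfies
`t ≤ |β'| ≤ t ^ ν` or `|β'| ≤ 1 / t` (`ν = 1` if `β ≥ 2` is a natural number). A number with `k` digits to the base `β` is a sum of `k`
terms `c β ^ m`, where `c` is an algebraic integer of `K` all of whose conjugates have absolute value at most `M`. The curve `E` has the
invariant of `y ^ 2 = x ^ 3 + a x + b` (so all twists are allowed), where each of the numbers `a`, `b` and `4 a ^ 3 + 27 b ^ 2` is a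
product of one digit and of powers of numbers with `k` digits to the base `β`, for instance `a` and `b` themselves have few digits (then
`4 a ^ 3 + 27 b ^ 2` has few digits, too). We assume that the product of the numbers whose powers divide `4 a ^ 3 + 27 b ^ 2` generates a
squarefree ideal. The result is

  `n h_F(E) ≤ (1 / 2) log B(E) + c₀ n + (2592 n ν D r (1 + log (q M))) ^ (2 r ^ 3)`, `r = p k + 3`,

where `B(E)` is the product of the norms of the primes of bad reduction of `E`, `c₀` an absolute constant, `p` the number of the factors with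
`k` digits, `D` a bound for the sums of exponents and `q` a positive integer in the ideal generated by `a` and `b`. The inequality is
uniform in the bases with given `ν` and depends on `K` only through the degree. Here `h_F(A) = n h_F(E)` (stable Faltings heights) and
`N_A = N_{K/ℚ}(f_E) |D_K| ^ 2` (Milne), where `f_E` is the conductor of `E`, so that `B(E) ≤ N_A`.

Proof. The explicit abc inequality for numbers with few digits over number fields (see `MP_7475bd_nt.EffectiveFewDigits`, `N = 3`) is applied to
`4 a ^ 3 + 27 b ^ 2 = Δ'`. The contributions of `a` and `b` are at most `1 / 3` and `1 / 2` of the height of the triple, which leaves the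
factor `6 = (1 - 1 / 3 - 1 / 2)⁻¹`; the height of `j` is at most the height of the triple and a constant, and `12 n h_F(E)` is at most
the height of `j` and a constant times `n`. The divisors of `4 a ^ 3 + 27 b ^ 2` prime to `6 q` are primes of bad reduction, because `j` is
not integral there.

Packages UPT, ROT and the first versions of LOT2, CUT2 (the inequality for few digits) and JHT (height of `j`) were proved by helper71, GCTQ by
helper88, LOT2 by helper84, CUT2 by helper46, package JBAD (bad primes) by helper75.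
-/

namespace Pool.Agent.Results.MP_c59389_nt.FreyFewDigits

open NumberField IsDedekindDomain

/-- `y` is a sum of `k` terms `c β ^ m`, where `c` is an algebraic integer of `K` all of whose conjugates have absolute
value at most `M` -/
def FewDigits {K : Type} [Field K] (β : 𝓞 K) (k : ℕ) (M : ℝ) (y : 𝓞 K) : Prop :=
  ∃ (c : Fin k → 𝓞 K) (m : Fin k → ℕ), (∀ j (φ : K →+* ℂ), ‖φ (c j)‖ ≤ M) ∧
    y = ∑ j, c j * β ^ (m j)

/-- `β` is a base: nonzero, and for some `t > 1` each conjugate `β'` of `β` satisfies `t ≤ |β'| ≤ t ^ ν` or `|β'| ≤ 1 / t` -/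
def IsBase {K : Type} [Field K] (β : 𝓞 K) (ν : ℕ) : Prop :=
  β ≠ 0 ∧ ∃ t : ℝ, 1 < t ∧ ∀ φ : K →+* ℂ, (t ≤ ‖φ β‖ ∧ ‖φ β‖ ≤ t ^ ν) ∨ ‖φ β‖ ≤ t⁻¹

/-- the modular invariant `j(τ) = E₄(τ) ^ 3 / Δ(τ) = 1 / q + 744 + ⋯` -/
noncomputable def jInv (τ : UpperHalfPlane) : ℂ :=
  ModularForm.E₄ τ ^ 3 / ModularForm.discriminant τ

/-- the archimedean term `- log (|Δ(τ)| (Im τ) ^ 6)` of the Faltings height -/
noncomputable def arch (τ : UpperHalfPlane) : ℝ :=
  -Real.log (‖ModularForm.discriminant τ‖ * τ.im ^ 6)

/-- Silverman's formula for the stable Faltings height (up to an additive constant which depends on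
the normalisation of the metric only) of an elliptic curve with modular invariant `j ∈ K`, where
`τ w` is a point of the upper half plane with modular invariant `j` at the infinite place `w`:
`12 [K : ℚ] h_F = ∑_v log max(|j|_v, 1) + ∑_w [K_w : ℝ] arch (τ w)`. -/
noncomputable def faltings {K : Type} [Field K] [NumberField K] (j : K)
    (τ : InfinitePlace K → UpperHalfPlane) : ℝ :=
  (∑ᶠ v : HeightOneSpectrum (𝓞 K), Real.log (max (FinitePlace.mk v j) 1) +
    ∑ w : InfinitePlace K, (w.mult : ℝ) * arch (τ w)) / (12 * Module.finrank ℚ K)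

/-- the points `τ w` have modular invariant `j` -/
def IsPeriod {K : Type} [Field K] [NumberField K] (j : K)
    (τ : InfinitePlace K → UpperHalfPlane) : Prop := ∀ w, jInv (τ w) = w.embedding j

/-- good reduction at `v`: some Weierstrass equation over `K` of the curve is integral at `v` and
has a discriminant which is a unit at `v` -/
def GoodAt {K : Type} [Field K] [NumberField K] (v : HeightOneSpectrum (𝓞 K))
    (E : WeierstrassCurve K) : Prop :=
  ∃ C : WeierstrassCurve.VariableChange K,
    v.valuation K (C • E).a₁ ≤ 1 ∧ v.valuation K (C • E).a₂ ≤ 1 ∧ v.valuation K (C • E).a₃ ≤ 1 ∧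
    v.valuation K (C • E).a₄ ≤ 1 ∧ v.valuation K (C • E).a₆ ≤ 1 ∧ v.valuation K (C • E).Δ = 1

/-- the product of the norms of the primes of bad reduction; it divides the norm of the
conductor -/
noncomputable def badNorm {K : Type} [Field K] [NumberField K] (E : WeierstrassCurve K) : ℝ :=
  ∏ᶠ v ∈ {v : HeightOneSpectrum (𝓞 K) | ¬ GoodAt v E}, (Ideal.absNorm v.asIdeal : ℝ)

/-- **Frey's inequality with slope `1 / 2` for elliptic curves with few digits**, over all number fields and uniformly in
the bases with given `ν`. -/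
theorem result : ∃ c₀ : ℝ, 0 ≤ c₀ ∧
    ∀ (K : Type) [Field K] [NumberField K]
      -- the elliptic curve and its periods
      (E : WeierstrassCurve K) (t : InfinitePlace K → UpperHalfPlane), E.Δ ≠ 0 →
      IsPeriod (E.c₄ ^ 3 / E.Δ) t →
    ∀ (a b : 𝓞 K), 4 * a ^ 3 + 27 * b ^ 2 ≠ 0 →
      E.c₄ ^ 3 / E.Δ = 6912 * (a : K) ^ 3 / (4 * (a : K) ^ 3 + 27 * (b : K) ^ 2) →
    ∀ (β : 𝓞 K) (k p D q ν : ℕ) (M : ℝ), 1 ≤ ν → IsBase β ν → 1 ≤ q → (q : 𝓞 K) ∈ Ideal.span {a, b} → 1 ≤ M →
    ∀ (τ : Fin p → Fin 3) (x : Fin p → 𝓞 K) (e : Fin p → ℕ) (w : Fin 3 → 𝓞 K),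
      (∀ i, FewDigits β k M (x i)) → (∀ σ, FewDigits β 1 M (w σ)) →
      (∀ i, 1 ≤ e i) → (∀ σ, ∑ i with τ i = σ, e i < D) →
      a = w 0 * ∏ i with τ i = 0, x i ^ e i →
      b = w 1 * ∏ i with τ i = 1, x i ^ e i →
      4 * a ^ 3 + 27 * b ^ 2 = w 2 * ∏ i with τ i = 2, x i ^ e i →
      Squarefree (Ideal.span {∏ i with τ i = 2, x i}) →
      Module.finrank ℚ K * faltings (E.c₄ ^ 3 / E.Δ) t ≤
        1 / 2 * Real.log (badNorm E) + c₀ * Module.finrank ℚ K +
        (2592 * (D * Module.finrank ℚ K * (p * k + 3 : ℕ) * (ν * (1 + Real.log (q * M))))) ^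
          (2 * (p * k + 3) ^ 3) := by
  obtain ⟨c₀, h0, h⟩ := Pool.Agent.P8H51.EB.frey2 Pool.Agent.P8H75.EF.jbad Pool.Agent.P8H71.EA.jht
  refine ⟨c₀, h0, ?_⟩
  intro K _ _ E t hE ht a b hΔ hj β k p D q ν M hν hβ hq hgcd hM τ x e w hx hw he heD ha hb hd hsq
  exact h K E t a b β k p D q ν M τ x e w hE ht hj hΔ hν hβ hq hgcd hM hx hw he heD ha hb hd hsq

end Pool.Agent.Results.MP_c59389_nt.FreyFewDigits
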