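import Mathlib
import Pool.Agent.P8H82.WS.Pkg

/-!
# MP_c59389_nt: the limit law of the height for the abelian surfaces `Res_{K/ℚ} E`, `K = ℚ(√5)`, of ALL
semistable elliptic curves with full two-torsion, and for the products of `n` such surfaces

Frey's inequality says that `h_F(A) ≤ (m / 2 + ε) log N_A + c` for all abelian varieties `A` over `ℚ`
of dimension `m`, with the stable Faltings height. Let `K = ℚ(√5)`. We consider the abelian surfaces
`S = Res_{K/ℚ} E` over `ℚ` for ALL elliptic curves `E` over `K` with full `K`-rational two-torsion and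
semistable (good or multiplicative) reduction at all primes of `K`, and, for every `n ≥ 1`, the
products `A` of `n` such surfaces (`m = 2 n`), ordered by the conductor `N_A`, with no bound on the
heights. Here `h_F(S) = 2 h_F(E)` (over the algebraic closure `S` is the product of the two conjugates
of `E`), and `N_S = |D_K| ^ 2 N(f_E) = 25 N(f_E)` (Milne). We find

1. their asymptotic number `A₀ ^ n (2 / 3) ^ (n - 1) / (n - 1)! X ^ (2 / 3) (log X) ^ (n - 1)`, with an explicit
   `A₀`;
2. the limit law of `h_F(A) - (1 / 6) log N_A`: it is the law of the sum of `n` independent variables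
   with the same continuous law, that of `(log v + a₁ + a₂) / 12`, where `v` (the limit of the norm of
   the minimal discriminant of `E` over `N_S ²`) has an explicit discrete law, given by weights on
   the ideals of `K`, and `a₁`, `a₂` (the two archimedean parts) have one explicit continuous law, all
   independent;
3. that this law is unbounded above: for every `c` a positive share of the varieties has
   `h_F(A) > (1 / 6) log N_A + c`; and that almost all of them satisfy Frey's inequality with any slope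
   `κ > 1 / 6` in place of `m / 2 = n`, while almost all of them violate it for every `κ < 1 / 6`.

The family is described completely: the Legendre parameters of the semistable curves with full
two-torsion are the `l ≠ 0, 1` for which `j(l)` is not divisible by the prime `2` of `K`, and
the semistable curve with a given parameter is unique up to isomorphism over `K`.

The starting file `StableHeightInProbability` shows, for all elliptic curves with full two-torsion over
a number field, that `h_F(A) - (1 / 6) log N` is bounded in probability, with bounds for the tails. The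
limit law for the elliptic curves over `ℚ` and their products is `StableHeightLimitLaw` (of this
project; its theorem on products is used here). The joint law of the triples over
`ℤ[(1 + √5) / 2]` ordered by their radical is `MP_2a5a28_nt.JointLawGolden` (of this project).

Formalised by helper20, helper33, helper56, helper57, helper71, helper78, helper88 and helper82 (and, for
the joint law and the theorem on products, helper44, helper52, helper53, helper55, helper60, helper75 and
helper86).
-/

set_option autoImplicit false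

namespace Pool.Agent.Results.MP_c59389_nt.SemistableSurfaces

open NumberField IsDedekindDomain MeasureTheory Filter Topology

variable {K : Type} [Field K] [NumberField K]

/-! ### The family -/

/-- the Weierstrass equation is integral at `v` -/
def IntegralAt (v : HeightOneSpectrum (𝓞 K)) (E : WeierstrassCurve K) : Prop :=
  v.valuation K E.a₁ ≤ 1 ∧ v.valuation K E.a₂ ≤ 1 ∧ v.valuation K E.a₃ ≤ 1 ∧
    v.valuation K E.a₄ ≤ 1 ∧ v.valuation K E.a₆ ≤ 1

/-- good reduction at `v`: some Weierstrass equation over `K` of the curve is integral at `v` and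
has a discriminant which is a unit at `v` -/
def GoodAt (v : HeightOneSpectrum (𝓞 K)) (E : WeierstrassCurve K) : Prop :=
  ∃ C : WeierstrassCurve.VariableChange K, IntegralAt v (C • E) ∧ v.valuation K (C • E).Δ = 1

/-- semistable (good or multiplicative) reduction at `v`: some Weierstrass equation over `K` of the
curve is integral at `v` and its discriminant or its invariant `c₄` is a unit at `v` -/
def SemistableAt (v : HeightOneSpectrum (𝓞 K)) (E : WeierstrassCurve K) : Prop :=
  ∃ C : WeierstrassCurve.VariableChange K, IntegralAt v (C • E) ∧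
    (v.valuation K (C • E).Δ = 1 ∨ v.valuation K (C • E).c₄ = 1)

/-- `E` has three points of order two over `K`, with the first coordinates `e 0`, `e 1`, `e 2`, and its
Legendre parameter for this ordering is `l` (so `E` is an elliptic curve and a twist of
`y² = x (x - 1) (x - l)`) -/
def IsLegendre (E : WeierstrassCurve K) (l : K) : Prop :=
  ∃ e : Fin 3 → K, Function.Injective e ∧
    (∀ i, 4 * e i ^ 3 + E.b₂ * e i ^ 2 + 2 * E.b₄ * e i + E.b₆ = 0) ∧
    l = (e 2 - e 0) / (e 1 - e 0)

/-- `E` is an everywhere semistable elliptic curve over `K` with full two-torsion and with the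
Legendre parameter `l` -/
def IsCurve (l : K) (E : WeierstrassCurve K) : Prop := IsLegendre E l ∧ ∀ v, SemistableAt v E

/-- `l` is the Legendre parameter of an everywhere semistable elliptic curve over `K` with full
two-torsion -/
def IsParameter (l : K) : Prop := ∃ E : WeierstrassCurve K, IsCurve l E

/-- the semistable curve with the Legendre parameter `l` (unique up to isomorphism by part (2) of
the theorem) -/
noncomputable def curve (l : K) : WeierstrassCurve K :=
  open Classical in
  if h : IsParameter l then h.choose else ⟨0, 0, 0, 0, 0⟩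

/-! ### Conductor and height of the surface `S = Res_{K/ℚ} E` -/

/-- the modular invariant of the curve -/
noncomputable def jOf (l : K) : K := (curve l).c₄ ^ 3 / (curve l).Δ

/-- the conductor `N_S = |D_K| ² N(f_E)` of the surface `S = Res_{K/ℚ} E`: `D_K = 5`, and `N(f_E)` is
the product of the norms of the primes of bad (multiplicative) reduction of the semistable `E` -/
noncomputable def condS (l : K) : ℝ :=
  25 * ∏ᶠ v ∈ {v : HeightOneSpectrum (𝓞 K) | ¬ GoodAt v (curve l)}, (Ideal.absNorm v.asIdeal : ℝ)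

/-- the modular invariant `j(τ) = E₄(τ) ^ 3 / Δ(τ) = 1 / q + 744 + ⋯` -/
noncomputable def jInv (τ : UpperHalfPlane) : ℂ :=
  ModularForm.E₄ τ ^ 3 / ModularForm.discriminant τ

/-- the archimedean term `- log (|Δ(τ)| (Im τ) ^ 6)` of the Faltings height -/
noncomputable def arch (τ : UpperHalfPlane) : ℝ :=
  -Real.log (‖ModularForm.discriminant τ‖ * τ.im ^ 6)

/-- `τ = i y` with `y ≥ 1` and with the modular invariant `z` -/
def IsPeriod (z : ℂ) (τ : UpperHalfPlane) : Prop := τ.re = 0 ∧ 1 ≤ τ.im ∧ jInv τ = z

/-- the archimedean term for the modular invariant `z` (in this family there is exactly one period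
at each infinite place, by part (3) of the theorem) -/
noncomputable def archOf (z : ℂ) : ℝ := arch (Classical.epsilon (IsPeriod z))

/-- the stable Faltings height of the surface `S = Res_{K/ℚ} E`, up to an additive constant which
depends on the normalisation only (Silverman): `12 h_F(S) = 12 [K : ℚ] h_F(E)` is the sum of
`log max (|j|_v, 1)` over the finite places (the logarithm of the norm of the minimal discriminant, as
`E` is semistable) and of the archimedean terms over the infinite places of `K` -/
noncomputable def heightS (l : K) : ℝ :=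
  (∑ᶠ v : HeightOneSpectrum (𝓞 K), Real.log (max (FinitePlace.mk v (jOf l)) 1) +
    ∑ w : InfinitePlace K, (w.mult : ℝ) * archOf (w.embedding (jOf l))) / 12

/-! ### Products of `n` surfaces -/

/-- the conductor of the product `A = S_{q 0} × ⋯ × S_{q (n - 1)}` of the surfaces of the curves with
the parameters `q k` -/
noncomputable def condA {n : ℕ} (q : Fin n → K) : ℝ := ∏ k, condS (q k)

/-- the stable Faltings height of the product -/
noncomputable def heightA {n : ℕ} (q : Fin n → K) : ℝ := ∑ k, heightS (q k)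

/-- the products of `n` such surfaces, of conductor at most `X` and with the property `P`, of any
height -/
def Varieties (n : ℕ) (X : ℝ) (P : (Fin n → K) → Prop) : Set (Fin n → K) :=
  {q | (∀ k, IsParameter (q k)) ∧ condA q ≤ X ∧ P q}

/-- the number of all of them -/
noncomputable def number (K : Type) [Field K] [NumberField K] (n : ℕ) (X : ℝ) : ℝ :=
  ((Varieties n X fun _ : Fin n → K => True).ncard : ℝ)

/-- the share of those with the property `P` -/
noncomputable def share (n : ℕ) (P : (Fin n → K) → Prop) (X : ℝ) : ℝ :=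
  ((Varieties n X P).ncard : ℝ) / number K n X

/-! ### The limit law -/

/-- the norm of a prime ideal -/
noncomputable def nrm (P : HeightOneSpectrum (𝓞 K)) : ℝ := (Ideal.absNorm P.asIdeal : ℝ)

/-- the weight of the ideal `w`: zero unless `8 ∣ w`, and zero for `w = 0` -/
noncomputable def weight (w : Ideal (𝓞 K)) : ℝ :=
  open Classical in
  (if w ≤ Ideal.span {16} then 1 else if w ≤ Ideal.span {8} then (4 : ℝ) ^ ((2 : ℝ) / 3) else 0) *
    ((Ideal.absNorm w : ℝ) ^ (-(1 : ℝ) / 3) *
      ∏ᶠ (P : HeightOneSpectrum (𝓞 K)) (_ : w ≤ P.asIdeal),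
        (3 * (nrm P - 1) / (nrm P ^ 2 + nrm P - 3)))

/-- the arithmetic part `v(w)`, the norm of the minimal discriminant of `E` over `N_S ²` -/
noncomputable def ratio (w : Ideal (𝓞 K)) : ℝ :=
  open Classical in
  (if w ≤ Ideal.span {16} then 1 else 16) * (Ideal.absNorm w : ℝ) ^ 2 / (25 ^ 2 * 2 ^ 16)

/-- the density of the real shapes, up to a constant -/
noncomputable def dens (x : ℝ) : ℝ := |x * (x + 1)| ^ (-(2 : ℝ) / 3)

/-- the modular invariant of the shape `x` -/
noncomputable def jShape (x : ℝ) : ℝ := 256 * (x ^ 2 + x + 1) ^ 3 / (x * (x + 1)) ^ 2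

/-- the probability that `a₁ + a₂ ≤ y`, where `a₁` and `a₂` are the archimedean terms of two
independent shapes with density proportional to `dens` -/
noncomputable def archLaw (y : ℝ) : ℝ :=
  (∫ x in {x : ℝ × ℝ | x.1 ≠ 0 ∧ x.1 ≠ -1 ∧ x.2 ≠ 0 ∧ x.2 ≠ -1 ∧
    archOf ((jShape x.1 : ℝ) : ℂ) + archOf ((jShape x.2 : ℝ) : ℂ) ≤ y}, dens x.1 * dens x.2) /
  ∫ x : ℝ × ℝ, dens x.1 * dens x.2

/-- the law of `(log (v(w)) + a₁ + a₂) / 12`, where the ideal `w` has a probability proportional to
`weight w` and is independent of `a₁`, `a₂` -/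
noncomputable def law (K : Type) [Field K] [NumberField K] (x : ℝ) : ℝ :=
  (∑' w : Ideal (𝓞 K), weight w * archLaw (12 * x - Real.log (ratio w))) /
    ∑' w : Ideal (𝓞 K), weight w

/-- the probability that the sum of `n` independent variables of law `μ` is at most `x` -/
noncomputable def sumLaw (μ : Measure ℝ) (n : ℕ) (x : ℝ) : ℝ :=
  (Measure.pi fun _ : Fin n => μ).real {y | ∑ k, y k ≤ x}

/-- **The limit law of the height for the semistable abelian surfaces `Res_{K/ℚ} E` over `ℚ`,
`K = ℚ(√5)`, and their products.** (1) `l ∈ K` is the Legendre parameter of a semistable elliptic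
curve over `K` with full two-torsion iff `l ≠ 0, 1` and `j(l) = 256 (l² - l + 1)³ / (l² (1 - l)²)` has no
zero above `2`. (2) The curve is then unique up to isomorphism over `K`. (3) It has exactly one
period `τ = i y`, `y ≥ 1`, at each infinite place. (4) There are `c₀ = ∏ (1 - 4 / q² + 3 / q³) > 0` (over
the primes of `K`, `q` the norm) and the probability measure `μ` with the continuous distribution
function `law K` such that for every `n ≥ 1`, for the products `A` of `n` surfaces, (a) the number of
those with `N_A ≤ X` is asymptotic to `A₀ ^ n (2 / 3) ^ (n - 1) / (n - 1)! X ^ (2 / 3) (log X) ^ (n - 1)`, where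
`A₀ = (log ((1 + √5) / 2) / 5) 25 ^ (-2/3) c₀ (3 Γ(1/3)² / Γ(2/3))² ∑ weight w`; (b) the share of those
with `h_F(A) ≤ (1 / 6) log N_A + x` tends to `sumLaw μ n x < 1`, for every `x`; (c) for every `c` the
share of those with `h_F(A) ≤ κ log N_A + c` tends to `1` if `κ > 1 / 6` and to `0` if `κ < 1 / 6`. -/
theorem result : ∀ (K : Type) [Field K] [NumberField K], Module.finrank ℚ K = 2 →
    (∃ s : K, s ^ 2 = 5) →
    (∀ l : K, IsParameter l ↔ l ≠ 0 ∧ l ≠ 1 ∧ ∀ P : HeightOneSpectrum (𝓞 K),
      P.valuation K 2 < 1 →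
        1 ≤ P.valuation K (256 * (l ^ 2 - l + 1) ^ 3 / (l ^ 2 * (1 - l) ^ 2))) ∧
    (∀ (l : K) (E E' : WeierstrassCurve K), IsCurve l E → IsCurve l E' →
      ∃ C : WeierstrassCurve.VariableChange K, C • E = E') ∧
    (∀ l : K, IsParameter l → ∀ w : InfinitePlace K, ∃! τ, IsPeriod (w.embedding (jOf l)) τ) ∧
    ∃ (c₀ : ℝ) (μ : Measure ℝ), 0 < c₀ ∧
      HasProd (fun P : HeightOneSpectrum (𝓞 K) => 1 - 4 / nrm P ^ 2 + 3 / nrm P ^ 3) c₀ ∧
      Summable (fun w : Ideal (𝓞 K) => weight w) ∧ 0 < ∑' w : Ideal (𝓞 K), weight w ∧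
      IsProbabilityMeasure μ ∧ (∀ x, μ.real (Set.Iic x) = law K x) ∧ Continuous (law K) ∧
      ∀ n : ℕ, 1 ≤ n →
        Tendsto (fun X : ℝ => number K n X / (X ^ ((2 : ℝ) / 3) * Real.log X ^ (n - 1))) atTop
          (𝓝 ((Real.log ((1 + √5) / 2) / 5 * (1 / 25 : ℝ) ^ ((2 : ℝ) / 3) * c₀ *
            (3 * Real.Gamma (1 / 3) ^ 2 / Real.Gamma (2 / 3)) ^ 2 *
              ∑' w : Ideal (𝓞 K), weight w) ^ n * (2 / 3) ^ (n - 1) / (n - 1).factorial)) ∧
        (∀ x : ℝ, Tendsto (share n fun q : Fin n → K => heightA q ≤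
          1 / 6 * Real.log (condA q) + x) atTop (𝓝 (sumLaw μ n x)) ∧ sumLaw μ n x < 1) ∧
        ∀ κ c : ℝ,
          (1 / 6 < κ → Tendsto (share n fun q : Fin n → K => heightA q ≤
            κ * Real.log (condA q) + c) atTop (𝓝 1)) ∧
          (κ < 1 / 6 → Tendsto (share n fun q : Fin n → K => heightA q ≤
            κ * Real.log (condA q) + c) atTop (𝓝 0)) := by
  intro K _ _ hK h5
  obtain ⟨hc0, hprod, hsum, hpos, ⟨σ, τ, hG⟩, μ, hμ, hμF, hcts, hn⟩ :=
    Pool.Agent.P8H82.WS.final (K := K) hK h5
  have hcur : ∀ (l : K) (E : WeierstrassCurve K), IsCurve l E ↔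
      (Pool.Agent.P8H82.WS.IsLeg E l ∧ ∀ v, Pool.Agent.P8H82.WS.SemiAt v E) := by
    intro l E
    constructor
    · rintro ⟨⟨e, h1, h2, h3⟩, h4⟩
      exact ⟨⟨e, ⟨h1, h2⟩, h3⟩, h4⟩
    · rintro ⟨⟨e, ⟨h1, h2⟩, h3⟩, h4⟩
      exact ⟨⟨e, h1, h2, h3⟩, h4⟩
  have hpar : ∀ l : K, IsParameter l ↔ Pool.Agent.P8H82.WS.Okl l := by
    intro l
    rw [Pool.Agent.P8H82.WS.sem_iff Pool.Agent.P8H82.WS.s_sea Pool.Agent.P8H82.WS.s_ord
      Pool.Agent.P8H82.WS.s_sec hK h5 hG l]
    exact exists_congr fun E => hcur l E
  have hsp : ∀ l : K, IsParameter l → IsCurve l (curve l) := by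
    intro l h
    unfold curve
    rw [dif_pos h]
    exact h.choose_spec
  have hj : ∀ l : K, IsParameter l → jOf l = Pool.Agent.P8H82.WS.jL l := by
    intro l h
    obtain ⟨⟨e, he, hl⟩, -⟩ := (hcur _ _).1 (hsp l h)
    obtain ⟨-, -, -, h3, -⟩ := Pool.Agent.P8H82.WS.s_sea K _ e he
    unfold jOf
    rw [h3, ← hl]
  have hc : ∀ l : K, IsParameter l → condS l = Pool.Agent.P8H82.WS.NA l := by
    intro l h
    obtain ⟨h1, h2⟩ := (hcur _ _).1 (hsp l h)
    exact Pool.Agent.P8H82.WS.cond_eq Pool.Agent.P8H82.WS.s_sea Pool.Agent.P8H82.WS.s_sed h1 h2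
  have hh : ∀ l : K, IsParameter l → heightS l = Pool.Agent.P8H82.WS.hA l := by
    intro l h
    unfold heightS
    rw [hj l h]
    rfl
  have hprodc : ∀ (n : ℕ) (q : Fin n → K), (∀ k, IsParameter (q k)) →
      condA q = ∏ k, Pool.Agent.P8H82.WS.NA (q k) := fun n q hq =>
    Finset.prod_congr rfl fun k _ => hc _ (hq k)
  have hsumh : ∀ (n : ℕ) (q : Fin n → K), (∀ k, IsParameter (q k)) →
      heightA q = ∑ k, Pool.Agent.P8H82.WS.hA (q k) := fun n q hq =>
    Finset.sum_congr rfl fun k _ => hh _ (hq k)
  have hV : ∀ (n : ℕ) (X : ℝ) (P P' : (Fin n → K) → Prop),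
      (∀ q : Fin n → K, (∀ k, IsParameter (q k)) → (P q ↔ P' q)) →
      Varieties n X P = Pool.Agent.P8H82.WS.Tu Pool.Agent.P8H82.WS.Okl
        (Pool.Agent.P8H82.WS.NA (K := K)) n X P' := by
    intro n X P P' hP
    ext q
    constructor
    · rintro ⟨h1, h2, h3⟩
      rw [hprodc n q h1] at h2
      exact ⟨fun k => (hpar _).1 (h1 k), h2, (hP q h1).1 h3⟩
    · rintro ⟨h1, h2, h3⟩
      have h1' : ∀ k, IsParameter (q k) := fun k => (hpar _).2 (h1 k)
      rw [← hprodc n q h1'] at h2
      exact ⟨h1', h2, (hP q h1').2 h3⟩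
  have hnum : ∀ (n : ℕ) (X : ℝ), number K n X = ((Pool.Agent.P8H82.WS.Tu
      Pool.Agent.P8H82.WS.Okl (Pool.Agent.P8H82.WS.NA (K := K)) n X fun _ => True).ncard : ℝ) := by
    intro n X
    unfold number
    rw [hV n X (fun _ => True) (fun _ => True) fun q _ => Iff.rfl]
  have hshare : ∀ (n : ℕ) (κ c X : ℝ), share n (fun q : Fin n → K => heightA q ≤
      κ * Real.log (condA q) + c) X =
      ((Pool.Agent.P8H82.WS.Tu Pool.Agent.P8H82.WS.Okl (Pool.Agent.P8H82.WS.NA (K := K)) n X
        fun q => ∑ k, Pool.Agent.P8H82.WS.hA (q k) ≤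
          κ * Real.log (∏ k, Pool.Agent.P8H82.WS.NA (q k)) + c).ncard : ℝ) /
      ((Pool.Agent.P8H82.WS.Tu Pool.Agent.P8H82.WS.Okl
        (Pool.Agent.P8H82.WS.NA (K := K)) n X fun _ => True).ncard : ℝ) := by
    intro n κ c X
    unfold share
    rw [hnum, hV n X (fun q : Fin n → K => heightA q ≤
      κ * Real.log (condA q) + c) (fun q => ∑ k, Pool.Agent.P8H82.WS.hA (q k) ≤
          κ * Real.log (∏ k, Pool.Agent.P8H82.WS.NA (q k)) + c) fun q hq => by
      rw [hprodc n q hq, hsumh n q hq]]
  have hw : (fun w : Ideal (𝓞 K) => weight w) = fun w => Pool.Agent.P8H82.WS.mw w := by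
    funext w
    unfold weight Pool.Agent.P8H82.WS.mw Pool.Agent.P8H82.JG.rho
    split_ifs
    · rw [one_mul]
      rfl
    · rfl
    · rw [zero_mul]
  have hw' : ∀ w : Ideal (𝓞 K), weight w = Pool.Agent.P8H82.WS.mw w := fun w => congrFun hw w
  have hI := Pool.Agent.P8H82.WS.I0_pos
  have harch : ∀ y : ℝ, archLaw y = Pool.Agent.P8H82.JG.mass
      (Pool.Agent.P8H82.WS.QQ Pool.Agent.P8H82.WS.aa y) / Pool.Agent.P8H82.WS.I0 := fun y => rfl
  have hterm : ∀ (x : ℝ) (w : Ideal (𝓞 K)), weight w * archLaw (12 * x - Real.log (ratio w)) =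
      Pool.Agent.P8H82.WS.mw w * Pool.Agent.P8H82.JG.mass (Pool.Agent.P8H82.WS.QQ
        Pool.Agent.P8H82.WS.aa (12 * x + Pool.Agent.P8H82.WS.cc w)) /
          Pool.Agent.P8H82.WS.I0 := by
    intro x w
    rw [hw', harch, mul_div_assoc]
    by_cases hbot : w = ⊥
    · have h0 : Pool.Agent.P8H82.WS.mw w = 0 := by
        unfold Pool.Agent.P8H82.WS.mw
        rw [hbot, Pool.Agent.P8H82.JG.rho_bot]
        simp
      rw [h0, zero_mul, zero_mul]
    · have hN : (0 : ℝ) < Ideal.absNorm w := by
        have : Ideal.absNorm w ≠ 0 := fun h => hbot (Ideal.absNorm_eq_zero_iff.1 h)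
        exact_mod_cast Nat.pos_of_ne_zero this
      have e : 12 * x - Real.log (ratio w) = 12 * x + Pool.Agent.P8H82.WS.cc w := by
        unfold ratio Pool.Agent.P8H82.WS.cc
        have h16 : Real.log 16 = 2 * Real.log 4 := by
          rw [← Real.log_rpow (by norm_num)]
          norm_num
        rw [Real.log_div (by split_ifs <;> positivity) (by positivity),
          Real.log_mul (by split_ifs <;> norm_num) (by positivity), Real.log_mul (by norm_num)
          (by norm_num), Real.log_pow, Real.log_pow, Real.log_pow]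
        push_cast
        split_ifs
        · rw [Real.log_one]
          ring
        · rw [h16]
          ring
      rw [e]
  have hlaw : law K = Pool.Agent.P8H82.WS.FF K := by
    funext x
    unfold law Pool.Agent.P8H82.WS.FF
    rw [tsum_congr (fun w => hterm x w), tsum_congr hw', tsum_div_const, tsum_mul_right, div_div,
      mul_comm Pool.Agent.P8H82.WS.I0]
  have hconst : Real.log ((1 + √5) / 2) / 5 * (1 / 25 : ℝ) ^ ((2 : ℝ) / 3) *
      Pool.Agent.P8H82.JG.c0 K * (3 * Real.Gamma (1 / 3) ^ 2 / Real.Gamma (2 / 3)) ^ 2 *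
        ∑' w : Ideal (𝓞 K), weight w = Pool.Agent.P8H82.WS.AA K := by
    unfold Pool.Agent.P8H82.WS.AA Pool.Agent.P8H82.JG.lam
    rw [hw, Pool.Agent.P8H82.WS.I0_eq, Pool.Agent.P8H82.JG.mass_univ Pool.Agent.P8H82.WS.s_beta]
    ring
  refine ⟨fun l => hpar l, fun l E E' h1 h2 => ?_, fun l hl w => ?_,
    Pool.Agent.P8H82.JG.c0 K, μ, hc0, hprod, ?_, ?_, hμ, ?_, ?_, fun n h1n => ?_⟩
  · obtain ⟨a1, a2⟩ := (hcur _ _).1 h1
    obtain ⟨b1, b2⟩ := (hcur _ _).1 h2
    exact Pool.Agent.P8H82.WS.sem_unique Pool.Agent.P8H82.WS.s_sea Pool.Agent.P8H82.WS.s_iso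
      Pool.Agent.P8H82.WS.s_loc Pool.Agent.P8H82.WS.s_glo hG a1 b1 a2 b2
  · rw [hj l hl]
    exact Pool.Agent.P8H82.WS.per_all hK h5 hG ((hpar l).1 hl) w
  · rw [hw]
    exact hsum
  · rw [hw]
    exact hpos
  · rw [hlaw]
    exact hμF
  · rw [hlaw]
    exact hcts
  · obtain ⟨m, rfl⟩ : ∃ m, n = m + 1 := ⟨n - 1, by omega⟩
    obtain ⟨a1, a2, a3⟩ := hn m
    refine ⟨?_, fun x => ⟨?_, (a2 x).2⟩, fun κ c => ⟨fun h => ?_, fun h => ?_⟩⟩
    · rw [hconst]
      refine a1.congr fun X => ?_
      rw [hnum]
      rfl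
    · refine (a2 x).1.congr fun X => ?_
      rw [hshare]
    · refine ((a3 κ c).1 h).congr fun X => ?_
      rw [hshare]
    · refine ((a3 κ c).2 h).congr fun X => ?_
      rw [hshare]

end Pool.Agent.Results.MP_c59389_nt.SemistableSurfaces
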