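import Mathlib
import Pool.Agent.P8H82.SH.Fin

/-!
# MP_c59389_nt: the limit law of `h_F(A) - (1 / 6) log N_A` for products of elliptic curves with full
two-torsion, in every dimension

Frey's inequality says that `h_F(A) ≤ (n / 2 + ε) log N_A + c` for all abelian varieties `A` over `ℚ`
of dimension `n`, with the stable Faltings height. Consider the products `A = E₁ × ⋯ × Eₙ` of ANY
elliptic curves over `ℚ` with full rational 2-torsion (all heights, all quadratic twists), for which
`h_F(A) = ∑ h_F(E_k)` and `N_A = ∏ N_{E_k}`, ordered by the conductor `N_A`. For every `n` we find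
their asymptotic number `A₀ ^ n (2 / 3) ^ (n - 1) / (n - 1)! X ^ (2 / 3) (log X) ^ (n - 1)`, and the limit
law of `h_F(A) - (1 / 6) log N_A`: it is the law of the sum of `n` independent variables with one and
the same continuous law, which is the law of `(log v + a) / 12` with independent `v` (the limit of
`den(j_E) / N_E ²`, on the positive rational numbers) and `a` (the archimedean part, an explicit law).
All the distribution functions have values strictly between `0` and `1`. In particular the slope `n / 2`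
can be replaced by `1 / 6 + ε`, but not by `1 / 6`, for almost all of these varieties, in every
dimension.

The starting file `StableHeightInProbability` shows for `n = 1` over `ℚ` that `h_F - (1 / 6) log N` is
bounded in probability, with tail bounds; the starting file `HeightLimitLaw` of `MP_6babc4_nt` has the
limit law of the unstable height for `n = 1`, and its engine is used here. New are: the stable height
(the denominator of the invariant, which needs a finer local structure of the additive primes, and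
a law with unbounded support on both sides), positivity, and the theorem on products.

Formalised by helper21, helper44, helper53, helper55 (product theorem) and helper82.
-/

set_option autoImplicit false

namespace Pool.Agent.Results.MP_c59389_nt.StableHeightLimitLaw

open Filter Topology MeasureTheory

/-- the discriminant of `x³ - a x - b` -/
def Disc (a b : ℤ) : ℤ := 4 * a ^ 3 - 27 * b ^ 2

/-- `y² = x³ - a x - b` is an elliptic curve and `|Disc|` is least among the integral models
`y² = x³ - a' x - b'`, `a' = u⁴ a`, `b' = u⁶ b`, `u ∈ ℚ^×`. Every elliptic curve over `ℚ` has exactly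
one such model. -/
def IsMinimal (a b : ℤ) : Prop :=
  Disc a b ≠ 0 ∧ ∀ (u : ℚ) (a' b' : ℤ), u ≠ 0 → (a' : ℚ) = u ^ 4 * a → (b' : ℚ) = u ^ 6 * b →
    |Disc a b| ≤ |Disc a' b'|

/-- all 2-torsion points are rational: `x³ - a x - b` splits over `ℚ` -/
def FullTwoTorsion (a b : ℤ) : Prop :=
  ∃ r₁ r₂ r₃ : ℚ, ∀ x : ℚ, x ^ 3 - a * x - b = (x - r₁) * (x - r₂) * (x - r₃)

/-- the prime-to-6 part of the conductor of a minimal model: the product over the primes `p ≥ 5`
dividing `Disc` of `p` (multiplicative reduction: `p ∤ a`) or `p²` (additive reduction: `p ∣ a`) -/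
def Cond6 (a b : ℤ) : ℕ :=
  ∏ p ∈ (Disc a b).natAbs.primeFactors.filter (fun p => 5 ≤ p), if (p : ℤ) ∣ a then p ^ 2 else p

/-- the curve `y² = x³ - a x - b` over `ℚ`, `q = (a, b)` -/
def E (q : ℤ × ℤ) : WeierstrassCurve ℚ := ⟨0, 0, 0, -(q.1 : ℚ), -(q.2 : ℚ)⟩

/-- the modular invariant `j = c₄³ / Δ` of the curve -/
noncomputable def jE (q : ℤ × ℤ) : ℚ := (E q).c₄ ^ 3 / (E q).Δ

/-- the modular invariant `j(τ) = E₄(τ) ^ 3 / Δ(τ) = 1 / q + 744 + ⋯` -/
noncomputable def jInv (τ : UpperHalfPlane) : ℂ :=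
  ModularForm.E₄ τ ^ 3 / ModularForm.discriminant τ

/-- the archimedean term `- log (|Δ(τ)| (Im τ) ^ 6)` of the Faltings height -/
noncomputable def arch (τ : UpperHalfPlane) : ℝ :=
  -Real.log (‖ModularForm.discriminant τ‖ * τ.im ^ 6)

/-- `τ = i y` with `y ≥ 1` and `E(ℂ)` is isomorphic to `ℂ / (ℤ + ℤ τ)` -/
def IsPeriod (q : ℤ × ℤ) (τ : UpperHalfPlane) : Prop :=
  τ.re = 0 ∧ 1 ≤ τ.im ∧ jInv τ = ((jE q : ℚ) : ℂ)

/-- the period of the curve (there is exactly one, by the first part of the theorem) -/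
noncomputable def period (q : ℤ × ℤ) : UpperHalfPlane := Classical.epsilon (IsPeriod q)

/-- the stable Faltings height, up to an additive constant which depends on the normalisation only
(Silverman): `12 h_F(E)` is `∑_p log max(|j|_p, 1) = log (denominator of j)` plus the archimedean
term -/
noncomputable def stableHeight (q : ℤ × ℤ) : ℝ :=
  (Real.log ((jE q).den : ℝ) + arch (period q)) / 12

/-- `f` is an admissible factor (for instance `f = 1`, or the part of the conductor composed of 2
and 3): on the minimal models with full 2-torsion it is a positive integer at most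
`2 ^ 8 * 3 ^ 5 = 62208`, and for every `m` there is `k` such that it depends only on the classes
of `a, b` modulo `6 ^ k` when neither `2 ^ m` nor `3 ^ m` divides the discriminant -/
def Admissible (f : ℤ × ℤ → ℕ) : Prop :=
  (∀ q : ℤ × ℤ, IsMinimal q.1 q.2 → FullTwoTorsion q.1 q.2 → 1 ≤ f q ∧ f q ≤ 62208) ∧
  ∀ m : ℕ, ∃ k : ℕ, ∀ q q' : ℤ × ℤ, IsMinimal q.1 q.2 → FullTwoTorsion q.1 q.2 →
    IsMinimal q'.1 q'.2 → FullTwoTorsion q'.1 q'.2 →
    ¬ (2 : ℤ) ^ m ∣ Disc q.1 q.2 → ¬ (3 : ℤ) ^ m ∣ Disc q.1 q.2 →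
    ¬ (2 : ℤ) ^ m ∣ Disc q'.1 q'.2 → ¬ (3 : ℤ) ^ m ∣ Disc q'.1 q'.2 →
    (6 : ℤ) ^ k ∣ q.1 - q'.1 → (6 : ℤ) ^ k ∣ q.2 - q'.2 → f q = f q'

/-- the conductor: `f` times the prime-to-6 part -/
def Cond (f : ℤ × ℤ → ℕ) (q : ℤ × ℤ) : ℕ := f q * Cond6 q.1 q.2

/-- the arithmetic part: the denominator of the invariant over the square of the conductor -/
noncomputable def ratio (f : ℤ × ℤ → ℕ) (q : ℤ × ℤ) : ℚ := ((jE q).den : ℚ) / (Cond f q : ℚ) ^ 2

/-- the law of the archimedean part: `arch τ` for `τ = i y`, `y ≥ 1`, with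
`j(τ) = 256 (1 + s + s²)³ / (s (1 + s))²`, where `s ∈ (0, 1]` has density proportional to
`(s (1 + s)) ^ (-2/3)` -/
noncomputable def archLaw (x : ℝ) : ℝ :=
  (∫ s in {s : ℝ | 0 < s ∧ s ≤ 1 ∧ ∃ τ : UpperHalfPlane, τ.re = 0 ∧ 1 ≤ τ.im ∧
    jInv τ = ((256 * (1 + s + s ^ 2) ^ 3 / (s * (1 + s)) ^ 2 : ℝ) : ℂ) ∧ arch τ ≤ x},
    (s * (1 + s)) ^ (-(2 / 3) : ℝ)) / ∫ s in Set.Ioc (0 : ℝ) 1, (s * (1 + s)) ^ (-(2 / 3) : ℝ)

/-- the law of `(log v + a) / 12` for independent `v` of law `ν` and `a` of law `archLaw` -/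
noncomputable def law (ν : ℚ → ℝ) (x : ℝ) : ℝ := ∑' v : ℚ, ν v * archLaw (12 * x - Real.log v)

/-- the probability that the sum of `n` independent variables of law `μ` is at most `x` -/
noncomputable def sumLaw (μ : Measure ℝ) (n : ℕ) (x : ℝ) : ℝ :=
  (Measure.pi fun _ : Fin n => μ).real {y | ∑ k, y k ≤ x}

/-- the conductor of the product `A = E_{q 0} × ⋯ × E_{q (n - 1)}` -/
def CondA (f : ℤ × ℤ → ℕ) {n : ℕ} (q : Fin n → ℤ × ℤ) : ℕ := ∏ k, Cond f (q k)

/-- the stable Faltings height of the product -/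
noncomputable def heightA {n : ℕ} (q : Fin n → ℤ × ℤ) : ℝ := ∑ k, stableHeight (q k)

/-- the products of `n` elliptic curves with full rational 2-torsion, of conductor at most `X` and of
any height, with the property `P` -/
def Varieties (f : ℤ × ℤ → ℕ) (n : ℕ) (X : ℝ) (P : (Fin n → ℤ × ℤ) → Prop) :
    Set (Fin n → ℤ × ℤ) :=
  {q | (∀ k, IsMinimal (q k).1 (q k).2 ∧ FullTwoTorsion (q k).1 (q k).2) ∧
    (CondA f q : ℝ) ≤ X ∧ P q}

/-- the number of all products of `n` curves, of conductor at most `X` -/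
noncomputable def number (f : ℤ × ℤ → ℕ) (n : ℕ) (X : ℝ) : ℝ :=
  ((Varieties f n X fun _ => True).ncard : ℝ)

/-- the share of those with the property `P` -/
noncomputable def share (f : ℤ × ℤ → ℕ) (n : ℕ) (P : (Fin n → ℤ × ℤ) → Prop) (X : ℝ) : ℝ :=
  ((Varieties f n X P).ncard : ℝ) / number f n X

/-- **The limit law of the stable Faltings height in every dimension.** (1) Every elliptic curve over
`ℚ` with full rational 2-torsion has exactly one period `τ = i y` with `y ≥ 1`. (2) For every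
admissible `f` there are `A > 0`, a probability distribution `ν` on the positive rational numbers and
the probability measure `μ` on `ℝ` with the continuous distribution function `law ν`, such that:
for single curves, the share of those with `den(j_E) / N_E ² = v` and `arch ≤ x` tends to
`ν v * archLaw x`, for all `v` and `x`; and for every `n ≥ 1`, for the products of `n` curves,
(a) the number of those with `N_A ≤ X` is asymptotic to
`A ^ n (2 / 3) ^ (n - 1) / (n - 1)! X ^ (2 / 3) (log X) ^ (n - 1)`;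
(b) the share of those with `h_F(A) ≤ (1 / 6) log N_A + x` tends to `sumLaw μ n x`, for every real
`x`, and `0 < sumLaw μ n x < 1`; (c) for all `c`, the share of those with `h_F(A) ≤ κ log N_A + c`
tends to `1` if `κ > 1 / 6` and to `0` if `κ < 1 / 6`. -/
theorem result :
    (∀ q : ℤ × ℤ, IsMinimal q.1 q.2 → FullTwoTorsion q.1 q.2 → ∃! τ, IsPeriod q τ) ∧
    ∀ f : ℤ × ℤ → ℕ, Admissible f → ∃ (A : ℝ) (ν : ℚ → ℝ) (μ : Measure ℝ), 0 < A ∧
      (∀ v, 0 ≤ ν v) ∧ (∀ v, ν v ≠ 0 → 0 < v) ∧ HasSum ν 1 ∧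
      IsProbabilityMeasure μ ∧ (∀ x, μ.real (Set.Iic x) = law ν x) ∧ Continuous (law ν) ∧
      (∀ (v : ℚ) (x : ℝ), Tendsto (share f 1 fun q => ratio f (q 0) = v ∧
        arch (period (q 0)) ≤ x) atTop (𝓝 (ν v * archLaw x))) ∧
      ∀ n : ℕ, 1 ≤ n →
        Tendsto (fun X : ℝ => number f n X / (X ^ ((2 : ℝ) / 3) * Real.log X ^ (n - 1))) atTop
          (𝓝 (A ^ n * (2 / 3) ^ (n - 1) / (n - 1).factorial)) ∧
        (∀ x : ℝ, Tendsto (share f n fun q =>
            heightA q ≤ 1 / 6 * Real.log (CondA f q : ℝ) + x) atTop (𝓝 (sumLaw μ n x)) ∧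
          0 < sumLaw μ n x ∧ sumLaw μ n x < 1) ∧
        ∀ κ c : ℝ,
          (1 / 6 < κ → Tendsto (share f n fun q =>
            heightA q ≤ κ * Real.log (CondA f q : ℝ) + c) atTop (𝓝 1)) ∧
          (κ < 1 / 6 → Tendsto (share f n fun q =>
            heightA q ≤ κ * Real.log (CondA f q : ℝ) + c) atTop (𝓝 0)) := by
  refine ⟨fun _ h1 h2 => Pool.Agent.R465.FH.per_ex h1 h2, fun f hf => ?_⟩
  obtain ⟨A, ν, μ, hA, h0, hpos, h1, hj, hμ, hμF, hc, hn⟩ := Pool.Agent.P8H82.SH.final hf
  refine ⟨A, ν, μ, hA, h0, hpos, h1, hμ, hμF, hc, fun v x => ?_, fun n h1n => ?_⟩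
  · exact Pool.Agent.P8H82.SH.share_one f v x (hj v x)
  · obtain ⟨m, rfl⟩ : ∃ m, n = m + 1 := ⟨n - 1, by omega⟩
    obtain ⟨a1, a2, a3⟩ := hn m
    refine ⟨a1, fun x => ⟨?_, (a2 x).2.1, (a2 x).2.2⟩, fun κ c => ⟨fun h => ?_, fun h => ?_⟩⟩
    · have h3 := a3 (1 / 6) x
      rw [if_neg (lt_irrefl _), if_pos rfl] at h3
      exact h3
    · have h3 := a3 κ c
      rw [if_neg (not_lt.2 h.le), if_neg h.ne'] at h3
      exact h3
    · have h3 := a3 κ c
      rw [if_pos h] at h3
      exact h3

end Pool.Agent.Results.MP_c59389_nt.StableHeightLimitLaw
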